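import Pool.Agent.H.MP_83934b_an.A

set_option autoImplicit false

open MeasureTheory Filter Set Topology

namespace Pool.Agent.Results.MP_83934b_an.Yes

def PI (f : Equiv.Perm (AddCircle (1 : ℝ))) : Prop :=
  ∃ F : Set (AddCircle (1 : ℝ)), F.Finite ∧ ∀ x ∉ F, ∃ c : AddCircle (1 : ℝ),
    (∀ᶠ y in 𝓝 x, f y = y + c) ∨ (∀ᶠ y in 𝓝 x, f y = -y + c)

def LM (f : AddCircle (1 : ℝ) → AddCircle (1 : ℝ)) : Prop :=
  ∀ A : Set (AddCircle (1 : ℝ)), NullMeasurableSet A volume → NullMeasurableSet (f ⁻¹' A) volume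

def InG (h : Equiv.Perm (AddCircle (1 : ℝ))) : Prop :=
  LM h ∧ LM h.symm ∧ ∀ A : Set (AddCircle (1 : ℝ)), NullMeasurableSet A volume →
    volume (h ⁻¹' A) = volume A

theorem result : ∃ σ : Equiv.Perm (AddCircle (1 : ℝ)) → Equiv.Perm (AddCircle (1 : ℝ)),
    (∀ f g, PI f → PI g → σ (f * g) = σ f * σ g) ∧
    (∀ f g, PI f → PI g → {x | f x ≠ g x}.Finite → σ f = σ g) ∧
    ∀ f, PI f → InG (σ f) ∧ ∀ᵐ x ∂(volume : Measure (AddCircle (1 : ℝ))), σ f x = f x := by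
  obtain ⟨σ, h1, h2, h3⟩ := Pool.Agent.H.MP_83934b_an.main
  exact ⟨σ, h1, h2, fun f hf =>
    ⟨⟨(h3 f hf).1, (h3 f hf).2.1, (h3 f hf).2.2.1⟩, (h3 f hf).2.2.2⟩⟩

end Pool.Agent.Results.MP_83934b_an.Yes
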